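import Pool.Agent.H952Z.Ent.Upper

/-!
# MP_629918_an, Q1: order of the entropy numbers of `W^{a,b}_1` in `L_p`, small smoothness

For `d = 2`, `1 < p < 2`, every `a > 1 - 1/p` (so for all `1 - 1/p < a ≤ 1/2`) and every real `b`,
`ε_k(W^{a,b}_1, L_p) ≍ k^(-a) (log k)^(a+b)`.

Definitions: `Pool/Agent/HypVol/Defs.lean` (`rho`, `layer`, `TP`, `fc`),
`Pool/Agent/MWidth/Defs.lean` (`lay`, `entP`), `Pool/Agent/H952Z/Ent/Defs.lean` (`W1`).
-/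

namespace Pool.Agent.Results.MP_629918_an.AOrder

open MWidth H952Ent

theorem result (p a b : ℝ) (hp : 1 < p) (hp2 : p < 2) (ha : 1 - 1 / p < a) :
    ∃ c C : ℝ, 0 < c ∧ 0 < C ∧ ∀ k : ℕ, 2 ≤ k →
      ENNReal.ofReal (c * (k:ℝ)^(-a) * (Real.log k)^(a + b)) ≤ entP 2 p k (W1 a b) ∧
      entP 2 p k (W1 a b) ≤ ENNReal.ofReal (C * (k:ℝ)^(-a) * (Real.log k)^(a + b)) := by
  have ha0 : 0 < a := by
    have : 0 < 1 - 1 / p := by rw [sub_pos, div_lt_one (by linarith)]; exact hp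
    linarith
  obtain ⟨c, hc, h1⟩ := lower_bound p hp.le a b ha0
  obtain ⟨C, hC, h2⟩ := upper_bound p hp hp2 a b ha
  exact ⟨c, C, hc, hC, fun k hk => ⟨h1 k hk, h2 k hk⟩⟩

end Pool.Agent.Results.MP_629918_an.AOrder
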